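import Pool.Agent.H39.Newt.Stmts

/-!
# Project NEWTON, module HEN: solving `f(x(t)) = v t^d mod t^(d+1)` for one component
-/

set_option autoImplicit false

namespace Pool.Newt

open MvPolynomial Pool.Agent.H39.MonoR Pool.Agent.H75.Mono

open Classical in
/-- the arc `x` with the component `j₀` changed by `t^(u j₀ + 1) ∑ η_s t^s` -/
noncomputable def HEN_xs {σ : Type} (u : σ → ℕ) (x : σ → PowerSeries ℂ) (j₀ : σ) {n : ℕ}
    (η : Fin n → ℂ) : σ → PowerSeries ℂ :=
  Function.update x j₀ (x j₀ + PowerSeries.X ^ (u j₀ + 1) *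
    ∑ s, PowerSeries.C (η s) * PowerSeries.X ^ (s : ℕ))

theorem HEN_xs_ord {σ : Type} (u : σ → ℕ) (x : σ → PowerSeries ℂ)
    (hx : ∀ j l, l < u j → PowerSeries.coeff l (x j) = 0) (j₀ : σ) {n : ℕ} (η : Fin n → ℂ) :
    (∀ j l, l < u j → PowerSeries.coeff l (HEN_xs u x j₀ η j) = 0) ∧
      ∀ j, PowerSeries.coeff (u j) (HEN_xs u x j₀ η j) = PowerSeries.coeff (u j) (x j) := by
  classical
  constructor
  · intro j l hl
    unfold HEN_xs
    by_cases hj : j = j₀
    · subst hj
      rw [Function.update_self, map_add, hx _ _ hl, PowerSeries.coeff_X_pow_mul',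
        if_neg (by omega), add_zero]
    · rw [Function.update_of_ne hj]
      exact hx j l hl
  · intro j
    unfold HEN_xs
    by_cases hj : j = j₀
    · subst hj
      rw [Function.update_self, map_add, PowerSeries.coeff_X_pow_mul',
        if_neg (by omega), add_zero]
    · rw [Function.update_of_ne hj]

open Classical in
theorem HEN_xs_succ {σ : Type} (u : σ → ℕ) (x : σ → PowerSeries ℂ) (j₀ : σ) {n : ℕ}
    (η : Fin (n + 1) → ℂ) :
    HEN_xs u x j₀ η = Function.update (HEN_xs u x j₀ (fun s : Fin n => η s.castSucc)) j₀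
      (HEN_xs u x j₀ (fun s : Fin n => η s.castSucc) j₀ +
        PowerSeries.X ^ (u j₀ + (n + 1)) * PowerSeries.C (η (Fin.last n))) := by
  unfold HEN_xs
  rw [Function.update_idem, Function.update_self, Fin.sum_univ_castSucc]
  congr 1
  simp only [Fin.val_castSucc, Fin.val_last]
  ring

theorem HEN_solve (hVar : SVar) {k : Type} [Field k] [Algebra k ℂ] {σ I : Type} [Fintype σ]
    [Fintype I] [Nonempty I] (a : I → σ → ℕ) (c : I → k) (u : σ → ℕ) (x : σ → PowerSeries ℂ)
    (hx : ∀ j l, l < u j → PowerSeries.coeff l (x j) = 0) (j₀ : σ)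
    (hj : aeval (fun j => PowerSeries.coeff (u j) (x j)) (pderiv j₀ (fpoly a c u)) ≠ 0)
    (w : ℕ → ℂ) (n : ℕ) :
    ∃! η : Fin n → ℂ, ∀ s, s < n →
      PowerSeries.coeff (Nw a u + (s + 1)) (aeval (HEN_xs u x j₀ η) (poly a c)) = w s := by
  classical
  induction n with
  | zero =>
    exact ⟨Fin.elim0, fun s hs => absurd hs (Nat.not_lt_zero s), fun η _ => funext fun s => s.elim0⟩
  | succ n ih =>
    obtain ⟨η0, h0, h0'⟩ := ih
    -- the key computation
    have key : ∀ η : Fin (n + 1) → ℂ,
        (∀ s, s < n → PowerSeries.coeff (Nw a u + (s + 1)) (aeval (HEN_xs u x j₀ η) (poly a c)) =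
          PowerSeries.coeff (Nw a u + (s + 1))
            (aeval (HEN_xs u x j₀ (fun s : Fin n => η s.castSucc)) (poly a c))) ∧
        PowerSeries.coeff (Nw a u + (n + 1)) (aeval (HEN_xs u x j₀ η) (poly a c)) =
          PowerSeries.coeff (Nw a u + (n + 1))
            (aeval (HEN_xs u x j₀ (fun s : Fin n => η s.castSucc)) (poly a c)) +
          η (Fin.last n) *
            aeval (fun j => PowerSeries.coeff (u j) (x j)) (pderiv j₀ (fpoly a c u)) := by
      intro η
      obtain ⟨h1, h2⟩ := HEN_xs_ord u x hx j₀ (fun s : Fin n => η s.castSucc)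
      obtain ⟨h3, h4⟩ := hVar k σ I a c u (HEN_xs u x j₀ (fun s : Fin n => η s.castSucc)) h1 j₀
        (n + 1) (Nat.succ_pos n) (PowerSeries.C (η (Fin.last n)))
      rw [← HEN_xs_succ] at h3 h4
      refine ⟨fun s hs => h3 _ (by omega), ?_⟩
      rw [h4]
      simp only [PowerSeries.constantCoeff_C, h2]
    set lam := aeval (fun j => PowerSeries.coeff (u j) (x j)) (pderiv j₀ (fpoly a c u)) with hlam
    refine ⟨Fin.snoc (α := fun _ => ℂ) η0 ((w n - PowerSeries.coeff (Nw a u + (n + 1))
      (aeval (HEN_xs u x j₀ η0) (poly a c))) / lam), ?_, ?_⟩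
    · intro s hs
      have hc : (fun s : Fin n => (Fin.snoc (α := fun _ => ℂ) η0 ((w n - PowerSeries.coeff
          (Nw a u + (n + 1)) (aeval (HEN_xs u x j₀ η0) (poly a c))) / lam) :
            Fin (n + 1) → ℂ) s.castSucc) = η0 := by
        funext s
        rw [Fin.snoc_castSucc]
      rcases Nat.lt_succ_iff_lt_or_eq.1 hs with h | h
      · rw [(key _).1 s h, hc]
        exact h0 s h
      · subst h
        rw [(key _).2, hc, Fin.snoc_last]
        field_simp
        ring
    · intro η hη
      have h1 : (fun s : Fin n => η s.castSucc) = η0 := by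
        apply h0'
        intro s hs
        rw [← (key η).1 s hs]
        exact hη s (by omega)
      have h2 : η (Fin.last n) = (w n - PowerSeries.coeff (Nw a u + (n + 1))
          (aeval (HEN_xs u x j₀ η0) (poly a c))) / lam := by
        have h3 := hη n (Nat.lt_succ_self n)
        rw [(key η).2, h1] at h3
        rw [eq_div_iff hj, ← h3]
        ring
      funext s
      refine Fin.lastCases ?_ (fun s => ?_) s
      · rw [Fin.snoc_last, h2]
      · rw [Fin.snoc_castSucc, ← h1]

theorem sHen (hArc : SArc) (hVar : SVar) : SHen := by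
  classical
  intro k _ _ σ I _ _ _ a c u x hx hz j₀ hj d v hd
  have hS := HEN_solve hVar a c u x hx j₀ hj (fun s => if Nw a u + (s + 1) = d then v else 0)
    (d - Nw a u)
  have e : ∀ η : Fin (d - Nw a u) → ℂ,
      (∀ l, l ≤ d → PowerSeries.coeff l (aeval (Function.update x j₀ (x j₀ +
        PowerSeries.X ^ (u j₀ + 1) *
          ∑ s, PowerSeries.C (η s) * PowerSeries.X ^ (s : ℕ))) (poly a c)) =
            if l = d then v else 0) ↔
      ∀ s, s < d - Nw a u →
        PowerSeries.coeff (Nw a u + (s + 1)) (aeval (HEN_xs u x j₀ η) (poly a c)) =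
          if Nw a u + (s + 1) = d then v else 0 := by
    intro η
    obtain ⟨h1, h2⟩ := HEN_xs_ord u x hx j₀ η
    obtain ⟨h3, h4⟩ := hArc k σ I a c u (HEN_xs u x j₀ η) h1
    simp only [h2] at h4
    rw [hz] at h4
    have e1 : HEN_xs u x j₀ η = Function.update x j₀ (x j₀ +
        PowerSeries.X ^ (u j₀ + 1) *
          ∑ s, PowerSeries.C (η s) * PowerSeries.X ^ (s : ℕ)) := by
      unfold HEN_xs
      congr
    rw [← e1]
    constructor
    · intro h s hs
      exact h _ (by omega)
    · intro h l hl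
      rcases lt_trichotomy l (Nw a u) with h5 | h5 | h5
      · rw [h3 l h5, if_neg (by omega)]
      · rw [h5, h4, if_neg (by omega)]
      · have h6 := h (l - Nw a u - 1) (by omega)
        have h7 : Nw a u + (l - Nw a u - 1 + 1) = l := by omega
        rw [h7] at h6
        exact h6
  obtain ⟨η, hη, hη'⟩ := hS
  exact ⟨η, (e η).2 hη, fun η2 h2 => hη' η2 ((e η2).1 h2)⟩

end Pool.Newt
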